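import Mathlib

set_option autoImplicit false

open Set

namespace Pool.Agent.Results.MP_5a5b3b_co.Isohedral

/-- The Euclidean plane. -/
abbrev Plane : Type := EuclideanSpace ℝ (Fin 2)

/-- A tiling of the plane: a countable family of closed sets that covers the plane and whose
members have pairwise disjoint interiors. -/
structure IsTiling (𝒯 : Set (Set Plane)) : Prop where
  countable : 𝒯.Countable
  closed : ∀ T ∈ 𝒯, IsClosed T
  covers : ⋃₀ 𝒯 = univ
  disjoint_interiors : ∀ S ∈ 𝒯, ∀ T ∈ 𝒯, S ≠ T → Disjoint (interior S) (interior T)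

/-- A symmetry of a family of sets: an isometry of the plane that permutes the members. -/
def IsSymmetry (𝒯 : Set (Set Plane)) (g : Plane ≃ᵢ Plane) : Prop :=
  (fun T : Set Plane => g '' T) '' 𝒯 = 𝒯

/-- An isohedral tiling: a tiling whose symmetry group acts transitively on the tiles. -/
def IsIsohedral (𝒯 : Set (Set Plane)) : Prop :=
  IsTiling 𝒯 ∧ ∀ S ∈ 𝒯, ∀ T ∈ 𝒯, ∃ g : Plane ≃ᵢ Plane, IsSymmetry 𝒯 g ∧ g '' S = T

/-- A closed topological disk: a set homeomorphic to the closed unit disk. -/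
def IsDisk (T : Set Plane) : Prop :=
  Nonempty (T ≃ₜ Metric.closedBall (0 : Plane) 1)

/-- `P` is the prototile of an isohedral tiling: some isohedral tiling of the plane has all its
tiles congruent to `P`. -/
def IsIsohedralPrototile (P : Set Plane) : Prop :=
  ∃ 𝒮 : Set (Set Plane), IsIsohedral 𝒮 ∧ ∀ S ∈ 𝒮, ∃ g : Plane ≃ᵢ Plane, g '' P = S

/-- The translate of `K` by `w`. -/
def tr (w : Plane) (K : Set Plane) : Set Plane := (fun p => w + p) '' K

lemma mem_tr {w : Plane} {K : Set Plane} {p : Plane} : p ∈ tr w K ↔ p - w ∈ K := by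
  constructor
  · rintro ⟨q, hq, rfl⟩
    simpa using hq
  · intro h
    exact ⟨p - w, h, by simp⟩

lemma tr_tr (w w' : Plane) (K : Set Plane) : tr w (tr w' K) = tr (w + w') K := by
  ext p
  simp only [mem_tr, sub_sub]

lemma tr_union (w : Plane) (K L : Set Plane) : tr w (K ∪ L) = tr w K ∪ tr w L := by
  simp [tr, image_union]

lemma image_addLeft (w : Plane) (K : Set Plane) :
    (IsometryEquiv.addLeft w) '' K = tr w K := rfl

lemma isClosed_tr (w : Plane) {K : Set Plane} (hK : IsClosed K) : IsClosed (tr w K) := by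
  have : tr w K = (fun p => p - w) ⁻¹' K := by
    ext p; simp [mem_tr]
  rw [this]
  exact hK.preimage (by fun_prop)

/-- The family of translates of `K` by the lattice spanned by `u` and `v`. -/
def lat (u v : Plane) (K : Set Plane) : Set (Set Plane) :=
  {S | ∃ i j : ℤ, S = tr ((i : ℝ) • u + (j : ℝ) • v) K}

/-- The translates of `K` by the lattice vectors cover the plane and meet in nowhere dense sets. -/
structure Good (u v : Plane) (K : Set Plane) : Prop where
  closed : IsClosed K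
  covers : ∀ p : Plane, ∃ i j : ℤ, p ∈ tr ((i : ℝ) • u + (j : ℝ) • v) K
  thin : ∀ i j i' j' : ℤ, ¬ (i = i' ∧ j = j') →
    interior (tr ((i : ℝ) • u + (j : ℝ) • v) K ∩ tr ((i' : ℝ) • u + (j' : ℝ) • v) K) = ∅

lemma Good.isohedral {u v : Plane} {K : Set Plane} (h : Good u v K) :
    IsIsohedral (lat u v K) := by
  refine ⟨⟨?_, ?_, ?_, ?_⟩, ?_⟩
  · have : lat u v K = range (fun ij : ℤ × ℤ => tr ((ij.1 : ℝ) • u + (ij.2 : ℝ) • v) K) := by
      ext S
      simp only [lat, mem_ofPred_eq, mem_range, Prod.exists]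
      constructor
      · rintro ⟨i, j, rfl⟩; exact ⟨i, j, rfl⟩
      · rintro ⟨i, j, rfl⟩; exact ⟨i, j, rfl⟩
    rw [this]
    exact countable_range _
  · rintro T ⟨i, j, rfl⟩
    exact isClosed_tr _ h.closed
  · apply eq_univ_of_forall
    intro p
    obtain ⟨i, j, hp⟩ := h.covers p
    exact ⟨_, ⟨i, j, rfl⟩, hp⟩
  · rintro S ⟨i, j, rfl⟩ T ⟨i', j', rfl⟩ hne
    rw [disjoint_iff_inter_eq_empty, ← interior_inter]
    apply h.thin
    rintro ⟨rfl, rfl⟩
    exact hne rfl
  · rintro S ⟨i, j, rfl⟩ T ⟨i', j', rfl⟩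
    refine ⟨IsometryEquiv.addLeft (((i' - i : ℤ) : ℝ) • u + ((j' - j : ℤ) : ℝ) • v), ?_, ?_⟩
    · ext S
      simp only [mem_image, lat, mem_ofPred_eq]
      constructor
      · rintro ⟨_, ⟨a, b, rfl⟩, rfl⟩
        refine ⟨i' - i + a, j' - j + b, ?_⟩
        rw [image_addLeft, tr_tr]
        congr 1
        push_cast
        module
      · rintro ⟨a, b, rfl⟩
        refine ⟨_, ⟨a - (i' - i), b - (j' - j), rfl⟩, ?_⟩
        rw [image_addLeft, tr_tr]
        congr 1
        push_cast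
        module
    · rw [image_addLeft, tr_tr]
      congr 1
      push_cast
      module

lemma thin_union {A B C D : Set Plane} (hA : IsClosed A) (hB : IsClosed B) (hC : IsClosed C)
    (hD : IsClosed D) (h1 : interior (A ∩ C) = ∅) (h2 : interior (A ∩ D) = ∅)
    (h3 : interior (B ∩ C) = ∅) (h4 : interior (B ∩ D) = ∅) :
    interior ((A ∪ B) ∩ (C ∪ D)) = ∅ := by
  have : (A ∪ B) ∩ (C ∪ D) = ((A ∩ C ∪ A ∩ D) ∪ B ∩ C) ∪ B ∩ D := by
    ext p; simp only [mem_inter_iff, mem_union]; tauto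
  rw [this, interior_union_isClosed_of_interior_empty
      (((hA.inter hC).union (hA.inter hD)).union (hB.inter hC)) h4,
    interior_union_isClosed_of_interior_empty ((hA.inter hC).union (hA.inter hD)) h3,
    interior_union_isClosed_of_interior_empty (hA.inter hC) h2, h1]

/-- Pairing the tiles of a lattice tiling along the vector `u + y v`. -/
lemma Good.pair {u v : Plane} {K : Set Plane} (h : Good u v K) (y : ℤ) :
    Good ((2 : ℝ) • u) v (K ∪ tr (u + (y : ℝ) • v) K) := by
  have e1 : ∀ i j : ℤ, tr ((i : ℝ) • (2 : ℝ) • u + (j : ℝ) • v) (K ∪ tr (u + (y : ℝ) • v) K) =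
      tr (((2 * i : ℤ) : ℝ) • u + (j : ℝ) • v) K ∪
        tr (((2 * i + 1 : ℤ) : ℝ) • u + ((j + y : ℤ) : ℝ) • v) K := by
    intro i j
    rw [tr_union, tr_tr]
    congr 2
    · push_cast; module
    · push_cast; module
  refine ⟨h.closed.union (isClosed_tr _ h.closed), ?_, ?_⟩
  · intro p
    obtain ⟨i, j, hp⟩ := h.covers p
    rcases Int.even_or_odd' i with ⟨a, rfl | rfl⟩
    · exact ⟨a, j, by rw [e1]; exact Or.inl hp⟩
    · refine ⟨a, j - y, ?_⟩
      rw [e1, sub_add_cancel]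
      exact Or.inr hp
  · intro i j i' j' hne
    rw [e1, e1]
    apply thin_union (isClosed_tr _ h.closed) (isClosed_tr _ h.closed) (isClosed_tr _ h.closed)
      (isClosed_tr _ h.closed) <;> apply h.thin <;> omega

lemma Good.tr {u v : Plane} {K : Set Plane} (h : Good u v K) :
    IsIsohedralPrototile K := by
  refine ⟨lat u v K, h.isohedral, ?_⟩
  rintro S ⟨i, j, rfl⟩
  exact ⟨IsometryEquiv.addLeft _, rfl⟩

lemma IsIsohedralPrototile.translate {K : Set Plane} (h : IsIsohedralPrototile K) (w : Plane) :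
    IsIsohedralPrototile (tr w K) := by
  obtain ⟨𝒮, h𝒮, hc⟩ := h
  refine ⟨𝒮, h𝒮, fun S hS => ?_⟩
  obtain ⟨g, hg⟩ := hc S hS
  refine ⟨(IsometryEquiv.addLeft (-w)).trans g, ?_⟩
  rw [← hg]
  ext q
  simp only [mem_image, mem_tr, IsometryEquiv.trans_apply]
  constructor
  · rintro ⟨p, hp, rfl⟩
    refine ⟨p - w, hp, ?_⟩
    congr 1
    simp [sub_eq_neg_add]
  · rintro ⟨p, hp, rfl⟩
    refine ⟨w + p, by simpa using hp, ?_⟩
    congr 1
    simp

/-- The unit square. -/
def Q : Set Plane := {p | (0 ≤ p 0 ∧ p 0 ≤ 1) ∧ (0 ≤ p 1 ∧ p 1 ≤ 1)}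

lemma isClosed_Q : IsClosed Q := by
  unfold Q
  simp only [ofPred_and]
  refine IsClosed.inter (IsClosed.inter ?_ ?_) (IsClosed.inter ?_ ?_) <;>
    exact isClosed_le (by fun_prop) (by fun_prop)

lemma interior_line (k : Fin 2) (c : ℝ) : interior {p : Plane | p k = c} = ∅ := by
  rw [eq_empty_iff_forall_notMem]
  intro p hp
  have hp0 : p k = c := (interior_subset hp :)
  rw [mem_interior_iff_mem_nhds, Metric.mem_nhds_iff] at hp
  obtain ⟨ε, hε, hsub⟩ := hp
  have : p + EuclideanSpace.single k (ε / 2) ∈ Metric.ball p ε := by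
    rw [Metric.mem_ball, dist_eq_norm, add_sub_cancel_left, PiLp.norm_single,
      Real.norm_eq_abs, abs_of_pos (by linarith)]
    linarith
  have h2 := hsub this
  simp only [mem_ofPred_eq, PiLp.add_apply, PiLp.single_apply, if_true] at h2
  linarith

lemma thin_of_subset {S : Set Plane} (k : Fin 2) (c : ℝ) (h : ∀ p ∈ S, p k = c) :
    interior S = ∅ :=
  subset_eq_empty (interior_mono (t := {p : Plane | p k = c}) h) (interior_line k c)

lemma int_touch {t : ℝ} {a b : ℤ} (hab : a ≠ b) (h1 : 0 ≤ t - a) (h2 : t - a ≤ 1)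
    (h3 : 0 ≤ t - b) (h4 : t - b ≤ 1) : t = (max a b : ℤ) := by
  rcases lt_or_gt_of_ne hab with h | h
  · have : (a : ℝ) + 1 ≤ b := by exact_mod_cast h
    rw [max_eq_right h.le]; linarith
  · have : (b : ℝ) + 1 ≤ a := by exact_mod_cast h
    rw [max_eq_left h.le]; linarith

/-- Unit squares in shifted rows. -/
lemma good_rows (s : ℝ) : Good !₂[1, 0] !₂[s, 1] Q := by
  refine ⟨isClosed_Q, ?_, ?_⟩
  · intro p
    refine ⟨⌊p 0 - ⌊p 1⌋ * s⌋, ⌊p 1⌋, ?_⟩
    rw [mem_tr]
    have a1 := Int.floor_le (p 1)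
    have a2 := Int.lt_floor_add_one (p 1)
    have b1 := Int.floor_le (p 0 - ⌊p 1⌋ * s)
    have b2 := Int.lt_floor_add_one (p 0 - ⌊p 1⌋ * s)
    simp only [Q, mem_ofPred_eq, PiLp.sub_apply, PiLp.add_apply, PiLp.smul_apply, smul_eq_mul]
    simp
    exact ⟨⟨by linarith, by linarith⟩, (Int.fract_lt_one _).le⟩
  · intro i j i' j' hne
    by_cases hj : j = j'
    · subst hj
      have hi : i ≠ i' := fun h => hne ⟨h, rfl⟩
      apply thin_of_subset 0 ((max i i' : ℤ) + j * s)
      rintro p ⟨h1, h2⟩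
      rw [mem_tr] at h1 h2
      simp only [Q, mem_ofPred_eq, PiLp.sub_apply, PiLp.add_apply, PiLp.smul_apply,
        smul_eq_mul] at h1 h2
      simp at h1 h2
      have := int_touch (t := p 0 - j * s) hi (by linarith [h1.1.1]) (by linarith [h1.1.2])
        (by linarith [h2.1.1]) (by linarith [h2.1.2])
      linarith
    · apply thin_of_subset 1 ((max j j' : ℤ))
      rintro p ⟨h1, h2⟩
      rw [mem_tr] at h1 h2
      simp only [Q, mem_ofPred_eq, PiLp.sub_apply, PiLp.add_apply, PiLp.smul_apply,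
        smul_eq_mul] at h1 h2
      simp at h1 h2
      exact int_touch (t := p 1) hj (by linarith [h1.2.1]) (by linarith [h1.2.2])
        (by linarith [h2.2.1]) (by linarith [h2.2.2])

/-- Unit squares in shifted columns. -/
lemma good_cols (s : ℝ) : Good !₂[0, 1] !₂[1, s] Q := by
  refine ⟨isClosed_Q, ?_, ?_⟩
  · intro p
    refine ⟨⌊p 1 - ⌊p 0⌋ * s⌋, ⌊p 0⌋, ?_⟩
    rw [mem_tr]
    have a1 := Int.floor_le (p 0)
    have a2 := Int.lt_floor_add_one (p 0)
    have b1 := Int.floor_le (p 1 - ⌊p 0⌋ * s)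
    have b2 := Int.lt_floor_add_one (p 1 - ⌊p 0⌋ * s)
    simp only [Q, mem_ofPred_eq, PiLp.sub_apply, PiLp.add_apply, PiLp.smul_apply, smul_eq_mul]
    simp
    exact ⟨(Int.fract_lt_one _).le, by linarith, by linarith⟩
  · intro i j i' j' hne
    by_cases hj : j = j'
    · subst hj
      have hi : i ≠ i' := fun h => hne ⟨h, rfl⟩
      apply thin_of_subset 1 ((max i i' : ℤ) + j * s)
      rintro p ⟨h1, h2⟩
      rw [mem_tr] at h1 h2
      simp only [Q, mem_ofPred_eq, PiLp.sub_apply, PiLp.add_apply, PiLp.smul_apply,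
        smul_eq_mul] at h1 h2
      simp at h1 h2
      have := int_touch (t := p 1 - j * s) hi (by linarith [h1.2.1]) (by linarith [h1.2.2])
        (by linarith [h2.2.1]) (by linarith [h2.2.2])
      linarith
    · apply thin_of_subset 0 ((max j j' : ℤ))
      rintro p ⟨h1, h2⟩
      rw [mem_tr] at h1 h2
      simp only [Q, mem_ofPred_eq, PiLp.sub_apply, PiLp.add_apply, PiLp.smul_apply,
        smul_eq_mul] at h1 h2
      simp at h1 h2
      exact int_touch (t := p 0) hj (by linarith [h1.1.1]) (by linarith [h1.1.2])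
        (by linarith [h2.1.1]) (by linarith [h2.1.2])

/-- Two unit squares of the square grid form the prototile of a lattice tiling. -/
lemma pair_prototile (x y : ℤ) (hxy : ¬ (x = 0 ∧ y = 0)) :
    IsIsohedralPrototile (Q ∪ tr ((x : ℝ) • !₂[1, 0] + (y : ℝ) • !₂[0, 1]) Q) := by
  by_cases hy : y = 0
  · have hx : x ≠ 0 := fun h => hxy ⟨h, hy⟩
    have hx' : (x : ℝ) ≠ 0 := by exact_mod_cast hx
    have := ((good_cols (((y : ℝ) - 1) / x)).pair x).tr
    convert this using 3
    ext k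
    fin_cases k
    · simp
    · simp
      field_simp
      ring
  · have hy' : (y : ℝ) ≠ 0 := by exact_mod_cast hy
    have := ((good_rows (((x : ℝ) - 1) / y)).pair y).tr
    convert this using 3
    ext k
    fin_cases k
    · simp
      field_simp
      ring
    · simp

lemma convex_Q : Convex ℝ Q := by
  intro p hp q hq a b ha hb hab
  obtain ⟨⟨p1, p2⟩, p3, p4⟩ := hp
  obtain ⟨⟨q1, q2⟩, q3, q4⟩ := hq
  simp only [Q, mem_ofPred_eq, PiLp.add_apply, PiLp.smul_apply, smul_eq_mul]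
  refine ⟨⟨?_, ?_⟩, ?_, ?_⟩ <;> nlinarith

lemma isDisk_Q : IsDisk Q := by
  have hne : (interior Q).Nonempty := by
    refine ⟨!₂[1 / 2, 1 / 2], ?_⟩
    rw [mem_interior]
    refine ⟨{p | (0 < p 0 ∧ p 0 < 1) ∧ (0 < p 1 ∧ p 1 < 1)}, ?_, ?_, ?_⟩
    · rintro p ⟨⟨a, b⟩, c, d⟩
      exact ⟨⟨a.le, b.le⟩, c.le, d.le⟩
    · simp only [ofPred_and]
      refine IsOpen.inter (IsOpen.inter ?_ ?_) (IsOpen.inter ?_ ?_) <;>
        exact isOpen_lt (by fun_prop) (by fun_prop)
    · simp
      norm_num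
  have hb : Bornology.IsBounded Q := by
    rw [isBounded_iff_forall_norm_le]
    refine ⟨2, ?_⟩
    rintro p ⟨⟨a, b⟩, c, d⟩
    rw [EuclideanSpace.norm_eq, Real.sqrt_le_iff]
    simp only [Fin.sum_univ_two, Real.norm_eq_abs, sq_abs]
    constructor
    · norm_num
    · nlinarith
  obtain ⟨h, -, hcl, -⟩ :=
    exists_homeomorph_image_interior_closure_frontier_eq_unitBall convex_Q hne hb
  rw [isClosed_Q.closure_eq] at hcl
  exact ⟨(h.image Q).trans (Homeomorph.setCongr hcl)⟩

lemma IsDisk.translate {K : Set Plane} (h : IsDisk K) (w : Plane) : IsDisk (tr w K) := by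
  obtain ⟨e⟩ := h
  exact ⟨((Homeomorph.addLeft w).image K).symm.trans e⟩

/-- There is an isohedral tiling of the plane by closed topological disks in which the union of
any two disjoint tiles is the prototile of an isohedral tiling. -/
theorem result :
    ∃ 𝒯 : Set (Set Plane), IsIsohedral 𝒯 ∧ (∀ T ∈ 𝒯, IsDisk T) ∧
      ∀ T₁ ∈ 𝒯, ∀ T₂ ∈ 𝒯, Disjoint T₁ T₂ → IsIsohedralPrototile (T₁ ∪ T₂) := by
  refine ⟨lat !₂[1, 0] !₂[0, 1] Q, (good_rows 0).isohedral, ?_, ?_⟩
  · rintro T ⟨i, j, rfl⟩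
    exact isDisk_Q.translate _
  · rintro T₁ ⟨i, j, rfl⟩ T₂ ⟨i', j', rfl⟩ hd
    have hne : ¬ (i' - i = 0 ∧ j' - j = 0) := by
      rintro ⟨h1, h2⟩
      have hi : i' = i := by omega
      have hj : j' = j := by omega
      subst hi hj
      rw [disjoint_self] at hd
      have : ((i' : ℝ) • (!₂[1, 0] : Plane) + (j' : ℝ) • !₂[0, 1]) ∈
          tr ((i' : ℝ) • (!₂[1, 0] : Plane) + (j' : ℝ) • !₂[0, 1]) Q := by
        rw [mem_tr, sub_self]
        simp [Q]
      rw [hd] at this
      exact this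
    have := (pair_prototile (i' - i) (j' - j) hne).translate
      ((i : ℝ) • (!₂[1, 0] : Plane) + (j : ℝ) • !₂[0, 1])
    rw [tr_union, tr_tr] at this
    convert this using 3
    push_cast
    module

end Pool.Agent.Results.MP_5a5b3b_co.Isohedral
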