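import Pool.Agent.MP_5a5b3b_co.h17.Main

set_option autoImplicit false

open Set

namespace Pool.Agent.Results.MP_5a5b3b_co.NotInside

open Pool.Agent.MP_5a5b3b_co.H17

/-- Every isohedral tiling `𝒯` of the plane by compact connected tiles has two disjoint tiles whose
union is the prototile of no isohedral tiling whose tiles are unions of tiles of `𝒯`. -/
theorem result (𝒯 : Set (Set Plane)) (h𝒯 : IsIsohedral 𝒯)
    (hc : ∀ T ∈ 𝒯, IsCompact T ∧ IsConnected T) :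
    ∃ T₁ ∈ 𝒯, ∃ T₂ ∈ 𝒯, Disjoint T₁ T₂ ∧
      ¬ ∃ 𝒮 : Set (Set Plane), IsIsohedral 𝒮 ∧
        (∀ S ∈ 𝒮, ∃ g : Plane ≃ᵢ Plane, g '' (T₁ ∪ T₂) = S) ∧
        ∀ S ∈ 𝒮, ∃ 𝒜 ⊆ 𝒯, S = ⋃₀ 𝒜 := by
  obtain ⟨A, x₀, ρ, D, h⟩ :=
    exists_ctx h𝒯 fun T hT => ⟨(hc T hT).1, (hc T hT).2.isPreconnected⟩
  exact ⟨A, h.mem, h.main⟩

end Pool.Agent.Results.MP_5a5b3b_co.NotInside
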